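import Mathlib

set_option autoImplicit false

namespace Pool.Agent.Results.MP_047b76_an.Yes

open Set Filter Topology Real

/-- frequencies -/
noncomputable def b (k : ℕ) : ℝ := 4 ^ k * (k * k.factorial)

/-- the function -/
noncomputable def f (d : ℕ) [NeZero d] (x : EuclideanSpace ℝ (Fin d)) : ℝ :=
  ∑' k : ℕ, (1 / 4) ^ k * cos (b k * x (Fin.ofNat d k))

theorem bd (k : ℕ) (y : ℝ) : ‖(1 / 4 : ℝ) ^ k * cos y‖ ≤ (1 / 4) ^ k := by
  rw [norm_mul, Real.norm_of_nonneg (by positivity)]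
  exact mul_le_of_le_one_right (by positivity) (abs_cos_le_one y)

theorem geo : Summable fun k : ℕ => (1 / 4 : ℝ) ^ k :=
  summable_geometric_of_lt_one (by norm_num) (by norm_num)

theorem fsum (k : ℕ) : ∑ j ∈ Finset.range k, (j * j.factorial : ℝ) = k.factorial - 1 := by
  induction k with
  | zero => simp
  | succ k ih => rw [Finset.sum_range_succ, ih, Nat.factorial_succ]; push_cast; ring

theorem osc (d : ℕ) [NeZero d] (x y : EuclideanSpace ℝ (Fin d)) (k : ℕ)
    (h : 1 ≤ |cos (b k * x (Fin.ofNat d k)) - cos (b k * y (Fin.ofNat d k))|) :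
    (1 / 4) ^ k / 3 ≤ |f d x - f d y| + (k.factorial - 1) * ‖x - y‖ := by
  set g : ℕ → ℝ := fun j => (1 / 4) ^ j * cos (b j * x (Fin.ofNat d j)) -
    (1 / 4) ^ j * cos (b j * y (Fin.ofNat d j)) with hg
  have g1 : ∀ j, ‖g j‖ ≤ 2 * (1 / 4) ^ j := fun j =>
    (norm_sub_le _ _).trans (by
      linarith [bd j (b j * x (Fin.ofNat d j)), bd j (b j * y (Fin.ofNat d j))])
  have sg : Summable g := Summable.of_norm_bounded (geo.mul_left 2) g1
  have e : f d x - f d y = ∑ j ∈ Finset.range k, g j + g k + ∑' j, g (j + (k + 1)) := by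
    rw [← Finset.sum_range_succ, sg.sum_add_tsum_nat_add, f, f, ← Summable.tsum_sub
      (Summable.of_norm_bounded geo fun j => bd j _) (Summable.of_norm_bounded geo fun j => bd j _)]
  have h1 : ‖∑' j, g (j + (k + 1))‖ ≤ 2 / 3 * (1 / 4) ^ k := by
    refine tsum_of_norm_bounded (g := fun j => 2 * (1 / 4) ^ (k + 1) * (1 / 4) ^ j) ?_ fun j =>
      (g1 _).trans (le_of_eq (by ring))
    have := (hasSum_geometric_of_lt_one (r := 1 / 4) (by norm_num) (by norm_num)).mul_left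
      (2 * (1 / 4 : ℝ) ^ (k + 1))
    rwa [show 2 * (1 / 4 : ℝ) ^ (k + 1) * (1 - 1 / 4)⁻¹ = 2 / 3 * (1 / 4) ^ k by ring] at this
  have h2 : |∑ j ∈ Finset.range k, g j| ≤ (k.factorial - 1) * ‖x - y‖ := by
    rw [← fsum, Finset.sum_mul]
    refine (Finset.abs_sum_le_sum_abs _ _).trans (Finset.sum_le_sum fun j _ => ?_)
    simp only [hg, ← mul_sub, abs_mul]
    have a := abs_cos_sub_cos_le (b j * x (Fin.ofNat d j)) (b j * y (Fin.ofNat d j))
    have c : |x (Fin.ofNat d j) - y (Fin.ofNat d j)| ≤ ‖x - y‖ := PiLp.norm_apply_le (x - y) _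
    rw [← mul_sub, abs_mul, abs_of_nonneg (show 0 ≤ b j by unfold b; positivity)] at a
    rw [abs_of_nonneg (by positivity)]
    calc _ ≤ (1 / 4) ^ j * (b j * ‖x - y‖) := by
          gcongr; exact a.trans (by gcongr; unfold b; positivity)
      _ = _ := by rw [b, one_div, inv_pow]; field_simp
  have h3 : (1 / 4) ^ k ≤ |g k| := by
    simp only [hg, ← mul_sub, abs_mul]
    rw [abs_of_nonneg (by positivity)]
    exact le_mul_of_one_le_right (by positivity) h
  rw [Real.norm_eq_abs] at h1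
  have := abs_le.1 h1
  have := abs_le.1 h2
  rw [e]
  cases abs_cases (g k) <;>
    cases abs_cases (∑ j ∈ Finset.range k, g j + g k + ∑' j, g (j + (k + 1))) <;> linarith

theorem pick (x : ℝ) : ∃ u ∈ Icc (0 : ℝ) (2 * π), 1 ≤ |cos (x + u) - cos x| := by
  rcases le_total 0 (cos x) with h | h
  · refine ⟨toIcoMod two_pi_pos 0 (π - x), Ico_subset_Icc_self (by
      simpa using toIcoMod_mem_Ico two_pi_pos 0 (π - x)), ?_⟩
    rw [toIcoMod, show x + (π - x - toIcoDiv two_pi_pos 0 (π - x) • (2 * π)) =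
      π - (toIcoDiv two_pi_pos 0 (π - x) : ℤ) * (2 * π) by rw [zsmul_eq_mul]; ring, cos_sub_int_mul_two_pi,
      cos_pi, abs_sub_comm]
    exact le_trans (by linarith) (le_abs_self _)
  · refine ⟨toIcoMod two_pi_pos 0 (-x), Ico_subset_Icc_self (by
      simpa using toIcoMod_mem_Ico two_pi_pos 0 (-x)), ?_⟩
    rw [toIcoMod, show x + (-x - toIcoDiv two_pi_pos 0 (-x) • (2 * π)) =
      0 - (toIcoDiv two_pi_pos 0 (-x) : ℤ) * (2 * π) by rw [zsmul_eq_mul]; ring,
      cos_sub_int_mul_two_pi, cos_zero]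
    exact le_trans (by linarith) (le_abs_self _)

theorem pick' (x B : ℝ) (hB : 0 < B) (g : ℝ → ℝ) (r : ℝ) (r0 : 0 ≤ r)
    (hg : ContinuousOn g (Icc 0 r)) (g0 : g 0 = x) (h : 2 * π / B ≤ |g r - x|) :
    ∃ s ∈ Icc 0 r, 1 ≤ |cos (B * g s) - cos (B * x)| := by
  rcases le_abs.1 h with h | h
  · obtain ⟨u, u1, u2⟩ := pick (B * x)
    have : u / B ≤ 2 * π / B := by gcongr; exact u1.2
    obtain ⟨s, s1, s2⟩ := intermediate_value_Icc r0 hg (show x + u / B ∈ _ from
      ⟨by rw [g0]; exact le_add_of_nonneg_right (div_nonneg u1.1 hB.le), by linarith⟩)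
    exact ⟨s, s1, by rwa [s2, mul_add, mul_div_cancel₀ _ hB.ne']⟩
  · obtain ⟨u, u1, u2⟩ := pick (-(B * x))
    have : u / B ≤ 2 * π / B := by gcongr; exact u1.2
    obtain ⟨s, s1, s2⟩ := intermediate_value_Icc' r0 hg (show x - u / B ∈ _ from
      ⟨by linarith, by rw [g0]; exact sub_le_self _ (div_nonneg u1.1 hB.le)⟩)
    refine ⟨s, s1, ?_⟩
    rwa [s2, mul_sub, mul_div_cancel₀ _ hB.ne', ← cos_neg, neg_sub', sub_neg_eq_add,
      ← cos_neg (B * x)]

theorem core (d : ℕ) [NeZero d] (c : ℝ → EuclideanSpace ℝ (Fin d)) (δ : ℝ) (δ0 : 0 < δ)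
    (hc : ContinuousOn c (Icc 0 δ)) (v : EuclideanSpace ℝ (Fin d)) (hv : v ≠ 0)
    (hd : HasDerivWithinAt c v (Icc 0 δ) 0) :
    ¬ DifferentiableWithinAt ℝ (f d ∘ c) (Icc 0 δ) 0 := by
  intro hf
  obtain ⟨i, hi⟩ : ∃ i, v i ≠ 0 := by
    by_contra h; push Not at h; exact hv (by ext i; exact h i)
  have m0 := abs_pos.2 hi
  obtain ⟨C1, h1⟩ := hf.isBigO_sub.bound
  obtain ⟨C2, h2⟩ := hd.differentiableWithinAt.isBigO_sub.bound
  have h3 := ((EuclideanSpace.proj (𝕜 := ℝ) i).hasFDerivAt.comp_hasDerivWithinAt 0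
    hd).isLittleO.bound (half_pos m0)
  obtain ⟨ε, ε0, hε⟩ := Metric.mem_nhdsWithin_iff.1 (h1.and (h2.and h3))
  obtain ⟨n, hn⟩ := exists_nat_gt (max (3 * (|C1| + |C2|) * (4 * π / |v i|))
    (4 * π / |v i| / min ε δ))
  set k := d * (n + 1) + i with hk
  have ki : Fin.ofNat d k = i := by ext; simp [hk, Nat.mod_eq_of_lt i.2]
  have kn : (n : ℝ) + 1 ≤ k := by
    have := Nat.pos_of_neZero d
    exact_mod_cast (by nlinarith : n + 1 ≤ d * (n + 1) + i)
  have k0 : (0 : ℝ) < k := by linarith [Nat.cast_nonneg (α := ℝ) n]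
  have f1 : (1 : ℝ) ≤ k.factorial := by exact_mod_cast Nat.factorial_pos k
  have p1 : (1 : ℝ) ≤ 4 ^ k := one_le_pow₀ (by norm_num)
  have bk : (k : ℝ) ≤ b k := by unfold b; nlinarith [mul_le_mul p1 f1 zero_le_one (by positivity)]
  have b0 : 0 < b k := k0.trans_le bk
  set A := 4 * π / |v i| with hA
  have A0 : 0 < A := by positivity
  have mp : 0 < min ε δ := lt_min ε0 δ0
  have r1 : A / b k < min ε δ := by
    rw [div_lt_iff₀ b0, mul_comm, ← div_lt_iff₀ mp]
    linarith [le_max_right (3 * (|C1| + |C2|) * A) (A / min ε δ)]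
  have r0 : 0 < A / b k := by positivity
  have mem : ∀ s ∈ Icc 0 (A / b k), s ∈ Metric.ball (0 : ℝ) ε ∩ Icc 0 δ := fun s hs =>
    ⟨by rw [Metric.mem_ball, Real.dist_0_eq_abs, abs_of_nonneg hs.1]
        exact hs.2.trans_lt (r1.trans_le (min_le_left _ _)),
      hs.1, hs.2.trans (r1.le.trans (min_le_right _ _))⟩
  obtain ⟨s, s1, s2⟩ := pick' (c 0 i) (b k) b0 (fun s => c s i) _ r0.le
    (((EuclideanSpace.proj (𝕜 := ℝ) i).continuous.comp_continuousOn hc).mono
      fun s hs => (mem s hs).2) rfl (by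
      have := (hε (mem _ ⟨r0.le, le_rfl⟩)).2.2
      simp only [Function.comp_apply, PiLp.proj_apply, sub_zero, smul_eq_mul, Real.norm_eq_abs,
        abs_of_pos r0] at this
      have e : 2 * π / b k = |v i| / 2 * (A / b k) := by rw [hA]; field_simp; ring
      have t := abs_sub_abs_le_abs_sub (A / b k * v i) (c (A / b k) i - c 0 i)
      rw [abs_sub_comm (A / b k * v i), abs_mul, abs_of_pos r0] at t
      rw [e]; linarith)
  have o := osc d (c s) (c 0) k (by rwa [ki])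
  obtain ⟨a1, a2, -⟩ := hε (mem s s1)
  simp only [Function.comp_apply, sub_zero, Real.norm_eq_abs, abs_of_nonneg s1.1] at a1 a2
  have a3 : |f d (c s) - f d (c 0)| ≤ k.factorial * (|C1| * (A / b k)) :=
    a1.trans ((mul_le_mul (le_abs_self _) s1.2 s1.1 (abs_nonneg _)).trans
      (le_mul_of_one_le_left (by positivity) f1))
  have a4 : (k.factorial - 1) * ‖c s - c 0‖ ≤ k.factorial * (|C2| * (A / b k)) :=
    mul_le_mul (by linarith) (a2.trans (mul_le_mul (le_abs_self _) s1.2 s1.1 (abs_nonneg _)))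
      (norm_nonneg _) (by positivity)
  have e : k.factorial * (|C1| * (A / b k)) + k.factorial * (|C2| * (A / b k)) =
      (1 / 4) ^ k / 3 * (3 * (|C1| + |C2|) * A / k) := by
    rw [b, one_div, inv_pow]; field_simp
  have l : 3 * (|C1| + |C2|) * A / k < 1 := by
    rw [div_lt_one k0]; linarith [le_max_left (3 * (|C1| + |C2|) * A) (A / min ε δ)]
  have := mul_lt_of_lt_one_right (show (0 : ℝ) < (1 / 4) ^ k / 3 by positivity) l
  linarith

theorem result : ∀ d : ℕ, 2 ≤ d → ∃ f : EuclideanSpace ℝ (Fin d) → ℝ, Continuous f ∧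
    ∀ (I : Set ℝ) (c : ℝ → EuclideanSpace ℝ (Fin d)), I.OrdConnected → (interior I).Nonempty →
      ContDiffOn ℝ 1 c I → (∀ t ∈ I, ‖derivWithin c I t‖ = 1) →
        ∀ t ∈ I, ¬ DifferentiableWithinAt ℝ (f ∘ c) I t := by
  intro d hd
  have : NeZero d := ⟨by omega⟩
  refine ⟨f d, continuous_tsum (fun k => by fun_prop) geo fun k x => bd k _,
    fun I c h1 h2 h3 h4 t ht hf => ?_⟩
  obtain ⟨s, hs, st⟩ : ∃ s ∈ I, s ≠ t := by
    by_contra h; push Not at h
    have : I = {t} := eq_singleton_iff_unique_mem.2 ⟨ht, h⟩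
    simp [this] at h2
  have hl : ∀ x, HasDerivAt (fun u : ℝ => t + u * (s - t)) (s - t) x := fun x => by
    simpa using ((hasDerivAt_id x).mul_const (s - t)).const_add t
  have mp : MapsTo (fun u : ℝ => t + u * (s - t)) (Icc 0 1) I := fun u hu => by
    have := h1.convex.add_smul_sub_mem ht hs hu
    simpa using this
  have e : t = t + 0 * (s - t) := by simp
  have dc := (h3.differentiableOn one_ne_zero t ht).hasDerivWithinAt
  refine core d (c ∘ fun u : ℝ => t + u * (s - t)) 1 one_pos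
    (h3.continuousOn.comp (by fun_prop) mp) ((s - t) • derivWithin c I t)
    (smul_ne_zero (sub_ne_zero.2 st) fun z => by simpa [z] using h4 t ht)
    (dc.scomp_of_eq 0 (hl 0).hasDerivWithinAt mp e) ?_
  exact DifferentiableWithinAt.comp (g := f d ∘ c) 0 (e ▸ hf)
    (hl 0).differentiableAt.differentiableWithinAt mp

end Pool.Agent.Results.MP_047b76_an.Yes
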